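import Pool.Agent.H604R2.SW.Final

/-!
# Gaussian mean width of `N` points in any dimension

The inequality of `Pool.Agent.H604R2.SW` for `N` points of `ℝ^{N-1}`, extended to `N` points of
Euclidean spaces of any dimension.
-/

set_option autoImplicit false

noncomputable section

namespace Pool.Agent.Y505.MW

open MeasureTheory Matrix Finset Filter Topology Set ProbabilityTheory
open scoped BigOperators
open Pool.Agent.H604R2.SW

abbrev E (d : ℕ) := EuclideanSpace ℝ (Fin d)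

variable {n d d' : ℕ}

/-- The supremum of the noisy linear functionals. -/
def sF (x : Fin (n + 2) → E d) (s δ : ℝ) (p : E d × E (n + 2)) : ℝ :=
  ⨆ i, (Real.sqrt s * inner ℝ (x i) p.1 + Real.sqrt δ * p.2 i)

theorem sF_measurable (x : Fin (n + 2) → E d) (s δ : ℝ) : Measurable (sF x s δ) := by
  unfold sF
  refine Measurable.iSup fun i => ?_
  fun_prop

theorem sF_integrable (x : Fin (n + 2) → E d) (s δ : ℝ) :
    Integrable (sF x s δ) ((stdGaussian (E d)).prod (stdGaussian (E (n + 2)))) := by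
  have h1 : ∀ i : Fin (n + 2), Integrable
      (fun p : E d × E (n + 2) => Real.sqrt s * inner ℝ (x i) p.1 + Real.sqrt δ * p.2 i)
      ((stdGaussian (E d)).prod (stdGaussian (E (n + 2)))) := by
    intro i
    refine Integrable.add ?_ ?_
    · refine Integrable.const_mul ?_ _
      have h : Integrable (fun z : E d => inner ℝ (x i) z) (stdGaussian (E d)) :=
        (innerSL ℝ (x i)).integrable_comp (IsGaussian.integrable_id)
      exact h.comp_fst _
    · refine Integrable.const_mul ?_ _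
      have h : Integrable (fun z : E (n + 2) => z i) (stdGaussian (E (n + 2))) :=
        (EuclideanSpace.proj i : E (n + 2) →L[ℝ] ℝ).integrable_comp (IsGaussian.integrable_id)
      exact h.comp_snd _
  have h2 : Integrable (fun p : E d × E (n + 2) =>
        ∑ i, |Real.sqrt s * inner ℝ (x i) p.1 + Real.sqrt δ * p.2 i|)
      ((stdGaussian (E d)).prod (stdGaussian (E (n + 2)))) :=
    integrable_finsetSum _ fun i _ => (h1 i).abs
  refine h2.mono' (sF_measurable x s δ).aestronglyMeasurable (Eventually.of_forall fun p => ?_)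
  rw [Real.norm_eq_abs]
  exact maxaux.abs_sup_le (fun i => Real.sqrt s * inner ℝ (x i) p.1 + Real.sqrt δ * p.2 i)
    (fun i => |Real.sqrt s * inner ℝ (x i) p.1 + Real.sqrt δ * p.2 i|) fun i => le_rfl

theorem sF_prob (x : Fin (n + 2) → E d)
    (R : Matrix (Fin (n + 2)) (Fin (n + 2)) ℝ) (hR : ∀ i j, inner ℝ (x i) (x j) = R i j)
    (s δ τ : ℝ) (hs : 0 ≤ s) (hδ : 0 < δ) (hτ : 0 < τ) :
    ((((stdGaussian (E d)).prod (stdGaussian (E (n + 2)))).prod (gaussianReal 0 1))
      {p | sF x s δ p.1 + τ * p.2 ≤ 0}).toReal =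
    orth (s • R + δ • (1 : Matrix (Fin (n + 2)) (Fin (n + 2)) ℝ) + Matrix.of (fun _ _ => τ ^ 2)) := by
  have h2 : St_mix := f_mix
  rw [h2 x R hR s δ (τ ^ 2) hs hδ (by positivity)]
  congr 2
  ext p
  simp only [Set.mem_ofPred_eq]
  rw [Real.sqrt_sq hτ.le]
  unfold sF
  constructor
  · intro h i
    have h3 : Real.sqrt s * inner ℝ (x i) p.1.1 + Real.sqrt δ * p.1.2 i ≤
        ⨆ i, (Real.sqrt s * inner ℝ (x i) p.1.1 + Real.sqrt δ * p.1.2 i) :=
      le_ciSup (f := fun i => (Real.sqrt s * inner ℝ (x i) p.1.1 + Real.sqrt δ * p.1.2 i))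
        (Set.finite_range _).bddAbove i
    linarith
  · intro h
    have : (⨆ i, (Real.sqrt s * inner ℝ (x i) p.1.1 + Real.sqrt δ * p.1.2 i)) ≤ -(τ * p.2) :=
      ciSup_le fun i => by linarith [h i]
    linarith

/-- The noisy inequality in all dimensions. -/
theorem noisy (x : Fin (n + 2) → E d) (y : Fin (n + 2) → E d')
    (hx : ∀ i, ‖x i‖ = 1) (hy : ∀ i, ‖y i‖ = 1)
    (hxy : ∀ i j, i ≠ j → inner ℝ (y i) (y j) = -1 / ((n : ℝ) + 1))
    (s δ : ℝ) (hs : 0 ≤ s) (hδ : 0 < δ) (hδe : δ = 1 - s * ((n : ℝ) + 2) / ((n : ℝ) + 1)) :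
    ∫ p, sF x s δ p ∂((stdGaussian (E d)).prod (stdGaussian (E (n + 2)))) ≤
      ∫ p, sF y s δ p ∂((stdGaussian (E d')).prod (stdGaussian (E (n + 2)))) := by
  have h3 : St_lim := lim_
  have h1 : St_OP := f_OP
  refine h3 _ _ (sF x s δ) (sF y s δ) (sF_measurable x s δ) (sF_measurable y s δ)
    (sF_integrable x s δ) (sF_integrable y s δ) (1 + s) ?_
  intro τ hτ hτ0
  rw [sF_prob x (Matrix.of fun i j => inner ℝ (x i) (x j)) (fun i j => rfl) s δ τ hs hδ hτ,
    sF_prob y (R0 (Fin (n + 2))) ?_ s δ τ hs hδ hτ,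
    ← Cm_eq _ s δ τ hδe _ rfl, ← Cm_eq _ s δ τ hδe _ rfl]
  · have hk : (0 : ℝ) < 1 + ((n : ℝ) + 2) * (τ ^ 2 - s / ((n : ℝ) + 1)) := by
      have h4 : s / ((n : ℝ) + 1) ≤ s :=
        div_le_self hs (by linarith [(Nat.cast_nonneg n : (0 : ℝ) ≤ n)])
      have h5 : s ≤ τ ^ 2 := by nlinarith
      have h6 : 0 ≤ ((n : ℝ) + 2) * (τ ^ 2 - s / ((n : ℝ) + 1)) :=
        mul_nonneg (by positivity) (by linarith)
      linarith
    have h7 := h1 (n := n) (1 + ((n : ℝ) + 2) * (τ ^ 2 - s / ((n : ℝ) + 1))) s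
      (Matrix.of fun i j => inner ℝ (x i) (x j)) hk hs (by rw [← hδe]; exact hδ) ?_
    · have h8 : Cm (1 + ((n : ℝ) + 2) * (τ ^ 2 - s / ((n : ℝ) + 1))) s (R0 (Fin (n + 2))) =
          Ek (Fin (n + 2)) (1 + ((n : ℝ) + 2) * (τ ^ 2 - s / ((n : ℝ) + 1))) := by
        unfold Cm
        simp
      rw [h8]
      exact h7
    · constructor
      · have : (Matrix.of fun i j => inner ℝ (x i) (x j) : Matrix (Fin (n + 2)) (Fin (n + 2)) ℝ) =
            Matrix.gram ℝ x := by
          ext i j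
          simp [Matrix.gram]
        rw [this]
        exact Matrix.posSemidef_gram ℝ x
      · intro i
        simp [hx i]
  · intro i j
    by_cases hij : i = j
    · subst hij
      simp [R0, hy i]
    · rw [hxy i j hij]
      simp only [R0, Matrix.of_apply, if_neg hij, Fintype.card_fin]
      push_cast
      congr 1
      ring

/-- the integrand, along the path -/
def FF (x : Fin (n + 2) → E d) (η : ℝ) (p : E d × E (n + 2)) : ℝ :=
  sF x ((n + 1) / (n + 2) * (1 - η)) η p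

lemma FF_cont_p (x : Fin (n + 2) → E d) (η : ℝ) : Continuous (FF x η) := by
  unfold FF sF
  exact maxaux.cont_sup _ fun i => by fun_prop

lemma FF_cont_η (x : Fin (n + 2) → E d) (p : E d × E (n + 2)) :
    Continuous fun η => FF x η p := by
  unfold FF sF
  exact maxaux.cont_sup (fun i η => Real.sqrt ((n + 1) / (n + 2) * (1 - η)) *
    inner ℝ (x i) p.1 + Real.sqrt η * p.2 i) fun i => by fun_prop

lemma FF_bound (x : Fin (n + 2) → E d) (hx : ∀ i, ‖x i‖ = 1)
    (η : ℝ) (h0 : 0 ≤ η) (h1 : η ≤ 1) (p : E d × E (n + 2)) :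
    ‖FF x η p‖ ≤ (n + 2) * (‖p.1‖ + ‖p.2‖) := by
  have key : ∀ i : Fin (n + 2),
      |Real.sqrt ((n + 1) / (n + 2) * (1 - η)) * inner ℝ (x i) p.1 + Real.sqrt η * p.2 i| ≤
        ‖p.1‖ + ‖p.2‖ := by
    intro i
    have a1 : |inner ℝ (x i) p.1| ≤ ‖p.1‖ := by
      have := abs_real_inner_le_norm (x i) p.1
      rwa [hx i, one_mul] at this
    have a2 : |p.2 i| ≤ ‖p.2‖ := by
      have h := PiLp.norm_apply_le p.2 i
      rwa [Real.norm_eq_abs] at h
    have s1 : Real.sqrt ((n + 1) / (n + 2) * (1 - η)) ≤ 1 := by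
      rw [Real.sqrt_le_one]
      have : ((n : ℝ) + 1) / (n + 2) ≤ 1 := by
        rw [div_le_one (by positivity)]; linarith
      have h3 : 0 ≤ ((n : ℝ) + 1) / (n + 2) := by positivity
      nlinarith
    have s2 : Real.sqrt η ≤ 1 := by rwa [Real.sqrt_le_one]
    have t1 := Real.sqrt_nonneg ((n + 1) / (n + 2) * (1 - η))
    have t2 := Real.sqrt_nonneg η
    calc |Real.sqrt ((n + 1) / (n + 2) * (1 - η)) * inner ℝ (x i) p.1 + Real.sqrt η * p.2 i|
        ≤ |Real.sqrt ((n + 1) / (n + 2) * (1 - η)) * inner ℝ (x i) p.1|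
          + |Real.sqrt η * p.2 i| := abs_add_le _ _
      _ = Real.sqrt ((n + 1) / (n + 2) * (1 - η)) * |inner ℝ (x i) p.1|
          + Real.sqrt η * |p.2 i| := by
            rw [abs_mul, abs_mul, abs_of_nonneg t1, abs_of_nonneg t2]
      _ ≤ 1 * ‖p.1‖ + 1 * ‖p.2‖ := by gcongr
      _ = _ := by ring
  have h := maxaux.abs_sup_le _ (fun _ => ‖p.1‖ + ‖p.2‖) key
  rw [Real.norm_eq_abs]
  unfold FF sF
  refine h.trans (le_of_eq ?_)
  simp
  ring

lemma bound_int : Integrable (fun p : E d × E (n + 2) => ((n : ℝ) + 2) * (‖p.1‖ + ‖p.2‖))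
    ((stdGaussian (E d)).prod (stdGaussian (E (n + 2)))) := by
  have h1 : Integrable (fun z : E d => ‖z‖) (stdGaussian (E d)) := IsGaussian.integrable_id.norm
  have h2 : Integrable (fun z : E (n + 2) => ‖z‖) (stdGaussian (E (n + 2))) :=
    IsGaussian.integrable_id.norm
  exact ((h1.comp_fst _).add (h2.comp_snd _)).const_mul _

lemma FF_tendsto (x : Fin (n + 2) → E d) (hx : ∀ i, ‖x i‖ = 1) :
    Tendsto (fun η => ∫ p, FF x η p ∂((stdGaussian (E d)).prod (stdGaussian (E (n + 2)))))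
      (𝓝[>] 0) (𝓝 (Real.sqrt ((n + 1) / (n + 2)) *
        ∫ z, (⨆ i, inner ℝ (x i) z) ∂(stdGaussian (E d)))) := by
  have h0 : Real.sqrt ((n + 1) / (n + 2)) *
        ∫ z, (⨆ i, inner ℝ (x i) z) ∂(stdGaussian (E d)) =
      ∫ p, FF x 0 p ∂((stdGaussian (E d)).prod (stdGaussian (E (n + 2)))) := by
    have e : FF x 0 = fun p : E d × E (n + 2) =>
        (fun z => Real.sqrt ((n + 1) / (n + 2)) * ⨆ i, inner ℝ (x i) z) p.1 := by
      funext p
      unfold FF sF
      simp only [sub_zero, mul_one, Real.sqrt_zero, zero_mul, add_zero]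
      rw [Real.mul_iSup_of_nonneg (Real.sqrt_nonneg _)]
    rw [e, integral_fun_fst, integral_const_mul]
    simp
  rw [h0]
  refine tendsto_integral_filter_of_dominated_convergence
    (fun p => ((n : ℝ) + 2) * (‖p.1‖ + ‖p.2‖)) ?_ ?_ bound_int ?_
  · exact Eventually.of_forall fun η => (FF_cont_p x η).aestronglyMeasurable
  · have : ∀ᶠ η in 𝓝[>] (0 : ℝ), η ∈ Ioo (0 : ℝ) 1 := Ioo_mem_nhdsGT one_pos
    filter_upwards [this] with η hη
    exact Eventually.of_forall fun p => FF_bound x hx η hη.1.le hη.2.le p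
  · refine Eventually.of_forall fun p => ?_
    exact ((FF_cont_η x p).tendsto 0).mono_left nhdsWithin_le_nhds

/-- **Gaussian mean width.**  Among all `N = n + 2` points of unit spheres of Euclidean spaces of
any dimensions the vertices of the regular simplex maximise the Gaussian mean width. -/
theorem gauss_max (x : Fin (n + 2) → E d) (y : Fin (n + 2) → E d')
    (hx : ∀ i, ‖x i‖ = 1) (hy : ∀ i, ‖y i‖ = 1)
    (hxy : ∀ i j, i ≠ j → inner ℝ (y i) (y j) = -1 / ((n : ℝ) + 1)) :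
    ∫ z, (⨆ i, inner ℝ (x i) z) ∂(stdGaussian (E d)) ≤
      ∫ z, (⨆ i, inner ℝ (y i) z) ∂(stdGaussian (E d')) := by
  have tx := FF_tendsto x hx
  have ty := FF_tendsto y hy
  have hle : Real.sqrt ((n + 1) / (n + 2)) *
        ∫ z, (⨆ i, inner ℝ (x i) z) ∂(stdGaussian (E d)) ≤
      Real.sqrt ((n + 1) / (n + 2)) *
        ∫ z, (⨆ i, inner ℝ (y i) z) ∂(stdGaussian (E d')) := by
    refine le_of_tendsto_of_tendsto tx ty ?_
    have : ∀ᶠ η in 𝓝[>] (0 : ℝ), η ∈ Ioo (0 : ℝ) 1 := Ioo_mem_nhdsGT one_pos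
    filter_upwards [this] with η hη
    have hn : ((n : ℝ) + 1) ≠ 0 := by positivity
    have hn2 : ((n : ℝ) + 2) ≠ 0 := by positivity
    refine noisy x y hx hy hxy ((n + 1) / (n + 2) * (1 - η)) η ?_ hη.1 ?_
    · have : 0 ≤ 1 - η := by linarith [hη.2]
      positivity
    · field_simp
      ring
  exact le_of_mul_le_mul_left hle (Real.sqrt_pos.2 (by positivity))

end Pool.Agent.Y505.MW
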