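import Pool.Agent.Y505.MW.Gauss

/-!
# Mean width
-/

set_option autoImplicit false

noncomputable section

namespace Pool.Agent.Y505.MW

open MeasureTheory Matrix Finset Filter Topology Set ProbabilityTheory
open scoped BigOperators
open Pool.Agent.H604R2.SW

variable {m n d : ℕ}

/-- the support function `h_K(u) = sup_{x ∈ K} ⟨x, u⟩` -/
def supp (K : Set (E d)) (u : E d) : ℝ := sSup ((fun x => inner ℝ x u) '' K)

/-- the rotation-invariant probability measure on the unit sphere of `ℝ^d` (the surface measure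
`toSphere` of Mathlib divided by its total mass) -/
def sigma (d : ℕ) : Measure (Metric.sphere (0 : E d) 1) :=
  ((volume : Measure (E d)).toSphere Set.univ)⁻¹ • (volume : Measure (E d)).toSphere

/-- the mean width `w(K) = ∫ (h_K(u) + h_K(-u)) dσ(u)` -/
def meanWidth (K : Set (E d)) : ℝ :=
  ∫ u : Metric.sphere (0 : E d) 1, (supp K (u : E d) + supp K (-(u : E d))) ∂(sigma d)

/-- the maximum of the inner products with finitely many points -/
def mx (x : Fin (m + 1) → E d) (u : E d) : ℝ := ⨆ i, inner ℝ (x i) u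

lemma le_mx (x : Fin (m + 1) → E d) (u : E d) (i : Fin (m + 1)) : inner ℝ (x i) u ≤ mx x u :=
  le_ciSup (f := fun i => inner ℝ (x i) u) (Set.finite_range _).bddAbove i

lemma supp_hull (x : Fin (m + 1) → E d) (u : E d) :
    supp (convexHull ℝ (Set.range x)) u = mx x u := by
  have hub : ∀ z ∈ convexHull ℝ (Set.range x), inner ℝ z u ≤ mx x u := by
    intro z hz
    have hc : Convex ℝ {z : E d | inner ℝ z u ≤ mx x u} := by
      intro a ha b hb s t hs ht hst
      simp only [Set.mem_ofPred_eq] at ha hb ⊢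
      rw [inner_add_left, real_inner_smul_left, real_inner_smul_left]
      have h1 := mul_le_mul_of_nonneg_left ha hs
      have h2 := mul_le_mul_of_nonneg_left hb ht
      have h3 : s * mx x u + t * mx x u = mx x u := by rw [← add_mul, hst, one_mul]
      linarith
    have hsub : Set.range x ⊆ {z : E d | inner ℝ z u ≤ mx x u} := by
      rintro _ ⟨i, rfl⟩
      exact le_mx x u i
    exact convexHull_min hsub hc hz
  apply le_antisymm
  · refine csSup_le ⟨inner ℝ (x 0) u, x 0, subset_convexHull ℝ _ ⟨0, rfl⟩, rfl⟩ ?_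
    rintro _ ⟨z, hz, rfl⟩
    exact hub z hz
  · refine ciSup_le fun i => ?_
    refine le_csSup ⟨mx x u, ?_⟩ ⟨x i, subset_convexHull ℝ _ ⟨i, rfl⟩, rfl⟩
    rintro _ ⟨z, hz, rfl⟩
    exact hub z hz

lemma mx_cont (x : Fin (m + 1) → E d) : Continuous (mx x) := S13681aux.sup_cont x

lemma mx_hom (x : Fin (m + 1) → E d) (t : ℝ) (z : E d) (ht : 0 ≤ t) :
    mx x (t • z) = t * mx x z := S13681aux.sup_hom x t z ht

lemma mx_int (x : Fin (m + 1) → E d) :
    IntegrableOn (mx x) (Metric.ball (0 : E d) 1) :=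
  ((mx_cont x).continuousOn.integrableOn_compact
    (isCompact_closedBall (0 : E d) 1)).mono_set Metric.ball_subset_closedBall

lemma ball_neg (f : E d → ℝ) :
    ∫ x in Metric.ball (0 : E d) 1, f (-x) = ∫ x in Metric.ball (0 : E d) 1, f x := by
  rw [← integral_indicator Metric.isOpen_ball.measurableSet,
    ← integral_indicator Metric.isOpen_ball.measurableSet,
    ← integral_neg_eq_self ((Metric.ball (0 : E d) 1).indicator f) volume]
  refine integral_congr_ae (Eventually.of_forall fun x => ?_)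
  show (Metric.ball (0 : E d) 1).indicator (fun x => f (-x)) x =
    (Metric.ball (0 : E d) 1).indicator f (-x)
  by_cases hx : x ∈ Metric.ball (0 : E d) 1
  · have hx' : -x ∈ Metric.ball (0 : E d) 1 := by
      rw [mem_ball_zero_iff, norm_neg]; exact mem_ball_zero_iff.1 hx
    rw [Set.indicator_of_mem hx, Set.indicator_of_mem hx']
  · have hx' : -x ∉ Metric.ball (0 : E d) 1 := by
      rw [mem_ball_zero_iff, norm_neg]; exact fun h => hx (mem_ball_zero_iff.2 h)
    rw [Set.indicator_of_notMem hx, Set.indicator_of_notMem hx']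

/-- Mean width as an integral over the ball. -/
theorem meanWidth_eq (hd : 1 ≤ d) : ∃ k : ℝ, 0 ≤ k ∧ ∀ (m : ℕ) (x : Fin (m + 1) → E d),
    meanWidth (convexHull ℝ (Set.range x)) = k * ∫ z in Metric.ball (0 : E d) 1, mx x z := by
  obtain ⟨c, hc, c', hc', hh⟩ := hom d hd
  refine ⟨((volume : Measure (E d)).toSphere Set.univ)⁻¹.toReal * (2 / c'), by positivity, ?_⟩
  intro m x
  unfold meanWidth sigma
  simp only [supp_hull]
  rw [integral_smul_measure]
  have h1 := (hh (fun z => mx x z + mx x (-z)) ((mx_cont x).add ((mx_cont x).comp continuous_neg))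
    (fun t z ht => by rw [← smul_neg, mx_hom x t z ht, mx_hom x t (-z) ht, mul_add])).2
  have h2 : ∫ z in Metric.ball (0 : E d) 1, (mx x z + mx x (-z)) =
      2 * ∫ z in Metric.ball (0 : E d) 1, mx x z := by
    have hint : IntegrableOn (fun z => mx x (-z)) (Metric.ball (0 : E d) 1) :=
      (((mx_cont x).comp continuous_neg).continuousOn.integrableOn_compact
        (isCompact_closedBall (0 : E d) 1)).mono_set Metric.ball_subset_closedBall
    rw [integral_add (mx_int x) hint, ball_neg (mx x)]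
    ring
  rw [h2] at h1
  have h3 : ∫ u : Metric.sphere (0 : E d) 1, (mx x (u : E d) + mx x (-(u : E d)))
      ∂((volume : Measure (E d)).toSphere) = (2 / c') * ∫ z in Metric.ball (0 : E d) 1, mx x z := by
    rw [div_mul_eq_mul_div, h1]
    field_simp
  rw [h3, smul_eq_mul, mul_assoc]

lemma mx_conv (v : Fin (m + 1) → E d) (i : Fin (m + 1))
    (a b : E d) (t : ℝ) (ht : 0 ≤ t) (ht1 : t ≤ 1)
    (hv : v i = t • a + (1 - t) • b) (x : E d) :
    mx v x ≤ t * mx (Function.update v i a) x + (1 - t) * mx (Function.update v i b) x := by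
  refine ciSup_le fun j => ?_
  have h1 := le_mx (Function.update v i a) x j
  have h2 := le_mx (Function.update v i b) x j
  have h3 : inner ℝ (v j) x = t * inner ℝ (Function.update v i a j) x +
      (1 - t) * inner ℝ (Function.update v i b j) x := by
    by_cases hj : j = i
    · subst hj
      rw [Function.update_self, Function.update_self, hv, inner_add_left, real_inner_smul_left,
        real_inner_smul_left]
    · rw [Function.update_of_ne hj, Function.update_of_ne hj]
      ring
  rw [h3]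
  exact add_le_add (mul_le_mul_of_nonneg_left h1 ht)
    (mul_le_mul_of_nonneg_left h2 (by linarith))

/-- Reduction from the closed unit ball to the unit sphere. -/
theorem ball_red (hd : 1 ≤ d) (B : ℝ)
    (hunit : ∀ v : Fin (n + 2) → E d, (∀ i, ‖v i‖ = 1) →
      ∫ x in Metric.ball (0 : E d) 1, mx v x ≤ B) (v : Fin (n + 2) → E d) (hv : ∀ i, ‖v i‖ ≤ 1) :
    ∫ x in Metric.ball (0 : E d) 1, mx v x ≤ B := by
  have key : ∀ (S : Finset (Fin (n + 2))) (v : Fin (n + 2) → E d),
      (∀ i, ‖v i‖ ≤ 1) → (∀ i, i ∉ S → ‖v i‖ = 1) →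
      ∫ x in Metric.ball (0 : E d) 1, mx v x ≤ B := by
    intro S
    induction S using Finset.induction_on with
    | empty => exact fun v _ hv => hunit v fun i => hv i (Finset.notMem_empty i)
    | insert i S hi ih =>
      intro v hv hvS
      obtain ⟨u, hu, huv⟩ : ∃ u : E d, ‖u‖ = 1 ∧ v i = ‖v i‖ • u := by
        by_cases h0 : v i = 0
        · refine ⟨EuclideanSpace.single ⟨0, by omega⟩ 1, by simp, ?_⟩
          rw [h0, norm_zero, zero_smul]
        · refine ⟨(‖v i‖⁻¹) • v i, ?_, ?_⟩
          · rw [norm_smul, norm_inv, norm_norm, inv_mul_cancel₀ (norm_ne_zero_iff.2 h0)]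
          · rw [smul_smul, mul_inv_cancel₀ (norm_ne_zero_iff.2 h0), one_smul]
      have hn := hv i
      have hn0 := norm_nonneg (v i)
      have hcomb : v i = ((1 + ‖v i‖) / 2) • u + (1 - (1 + ‖v i‖) / 2) • (-u) := by
        rw [smul_neg, ← sub_eq_add_neg, ← sub_smul]
        conv_lhs => rw [huv]
        congr 1
        ring
      have hup : ∀ a : E d, ‖a‖ = 1 →
          ∫ x in Metric.ball (0 : E d) 1, mx (Function.update v i a) x ≤ B := by
        intro a ha
        refine ih _ (fun j => ?_) fun j hj => ?_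
        · by_cases hji : j = i
          · subst hji
            rw [Function.update_self, ha]
          · rw [Function.update_of_ne hji]
            exact hv j
        · by_cases hji : j = i
          · subst hji
            rw [Function.update_self, ha]
          · rw [Function.update_of_ne hji]
            exact hvS j fun h => by
              rcases Finset.mem_insert.1 h with h | h
              · exact hji h
              · exact hj h
      have h3 : ∫ x in Metric.ball (0 : E d) 1, mx v x ≤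
          ∫ x in Metric.ball (0 : E d) 1,
            ((1 + ‖v i‖) / 2 * mx (Function.update v i u) x +
              (1 - (1 + ‖v i‖) / 2) * mx (Function.update v i (-u)) x) :=
        integral_mono (mx_int v)
          (((mx_int _).const_mul _).add ((mx_int _).const_mul _))
          fun x => mx_conv v i u (-u) _ (by linarith) (by linarith) hcomb x
      rw [integral_add ((mx_int _).const_mul _) ((mx_int _).const_mul _),
        integral_const_mul, integral_const_mul] at h3
      have h4 := mul_le_mul_of_nonneg_left (hup u hu)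
        (show 0 ≤ (1 + ‖v i‖) / 2 by linarith)
      have h5 := mul_le_mul_of_nonneg_left (hup (-u) (by rw [norm_neg, hu]))
        (show 0 ≤ 1 - (1 + ‖v i‖) / 2 by linarith)
      linarith
  exact key Finset.univ v hv fun i hi => absurd (Finset.mem_univ i) hi

/-- The ball inequality for points of the closed unit ball. -/
theorem ball_max (hd : 1 ≤ d) (v w : Fin (n + 2) → E d) (hv : ∀ i, ‖v i‖ ≤ 1)
    (hw : ∀ i, ‖w i‖ = 1) (hww : ∀ i j, i ≠ j → inner ℝ (w i) (w j) = -1 / ((n : ℝ) + 1)) :
    ∫ x in Metric.ball (0 : E d) 1, mx v x ≤ ∫ x in Metric.ball (0 : E d) 1, mx w x := by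
  obtain ⟨c, hc, c', hc', hcc⟩ := hom d hd
  refine ball_red hd _ (fun v hv => ?_) v hv
  have h1 := hcc _ (mx_cont v) fun t x ht => mx_hom v t x ht
  have h2 := hcc _ (mx_cont w) fun t x ht => mx_hom w t x ht
  rw [h1.2, h2.2]
  have h3 : ∫ z, mx v z ∂(stdGaussian (E d)) ≤ ∫ z, mx w z ∂(stdGaussian (E d)) :=
    gauss_max v w hv hw hww
  rw [h1.1, h2.1] at h3
  exact mul_le_mul_of_nonneg_left (le_of_mul_le_mul_left h3 hc) hc'.le

/-- The Gaussian inequality for points of the closed unit ball, for any two dimensions. -/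
theorem gauss_ball (hd : 1 ≤ d) {d' : ℕ} (v : Fin (n + 2) → E d) (w : Fin (n + 2) → E d')
    (hv : ∀ i, ‖v i‖ ≤ 1)
    (hw : ∀ i, ‖w i‖ = 1) (hww : ∀ i j, i ≠ j → inner ℝ (w i) (w j) = -1 / ((n : ℝ) + 1)) :
    ∫ z, (⨆ i, inner ℝ (v i) z) ∂(stdGaussian (E d)) ≤
      ∫ z, (⨆ i, inner ℝ (w i) z) ∂(stdGaussian (E d')) := by
  obtain ⟨c, hc, c', hc', hcc⟩ := hom d hd
  have hk : ∀ v : Fin (n + 2) → E d, ∫ z, mx v z ∂(stdGaussian (E d)) =
      c / c' * ∫ x in Metric.ball (0 : E d) 1, mx v x := by
    intro v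
    have h1 := hcc _ (mx_cont v) fun t x ht => mx_hom v t x ht
    rw [h1.1, h1.2]
    field_simp
  set B : ℝ := ∫ z, (⨆ i, inner ℝ (w i) z) ∂(stdGaussian (E d')) with hB
  have h2 : ∫ x in Metric.ball (0 : E d) 1, mx v x ≤ c' / c * B := by
    refine ball_red hd _ (fun v hv => ?_) v hv
    have h3 : ∫ z, mx v z ∂(stdGaussian (E d)) ≤ B := gauss_max v w hv hw hww
    rw [hk v] at h3
    have h4 := mul_le_mul_of_nonneg_left h3 (show 0 ≤ c' / c by positivity)
    have h5 : c' / c * (c / c' * ∫ x in Metric.ball (0 : E d) 1, mx v x) =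
        ∫ x in Metric.ball (0 : E d) 1, mx v x := by field_simp
    rwa [h5] at h4
  show ∫ z, mx v z ∂(stdGaussian (E d)) ≤ B
  rw [hk v]
  have h4 := mul_le_mul_of_nonneg_left h2 (show 0 ≤ c / c' by positivity)
  have h5 : c / c' * (c' / c * B) = B := by field_simp
  rwa [h5] at h4

/-- **Mean width of `n + 2` points of the unit ball.** -/
theorem width_max (hd : 1 ≤ d) (v w : Fin (n + 2) → E d) (hv : ∀ i, ‖v i‖ ≤ 1)
    (hw : ∀ i, ‖w i‖ = 1) (hww : ∀ i j, i ≠ j → inner ℝ (w i) (w j) = -1 / ((n : ℝ) + 1)) :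
    meanWidth (convexHull ℝ (Set.range v)) ≤ meanWidth (convexHull ℝ (Set.range w)) := by
  obtain ⟨k, hk, h⟩ := meanWidth_eq (d := d) hd
  rw [h (n + 1) v, h (n + 1) w]
  exact mul_le_mul_of_nonneg_left (ball_max hd v w hv hw hww) hk

/-- Regular simplices with `n + 2` vertices on the unit sphere of `ℝ^d` centred at `0` exist for
`n + 2 ≤ d + 1`. -/
theorem exists_regular (hnd : n + 1 ≤ d) : ∃ w : Fin (n + 2) → E d,
    (∀ i, ‖w i‖ = 1) ∧ ∀ i j, i ≠ j → inner ℝ (w i) (w j) = -1 / ((n : ℝ) + 1) := by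
  classical
  set u : E (n + 2) := ∑ j, EuclideanSpace.single j (1 : ℝ) with hu
  have hun : ∀ i, inner ℝ (EuclideanSpace.single i (1 : ℝ)) u = (1 : ℝ) := by
    intro i
    rw [hu, inner_sum]
    simp only [EuclideanSpace.inner_single_left, map_one, one_mul, PiLp.single_apply]
    simp
  have huu : inner ℝ u u = ((n : ℝ) + 2) := by
    conv_lhs => rw [hu, sum_inner]
    rw [← hu]
    simp only [hun]
    simp
  have hu0 : u ≠ 0 := by
    intro h
    rw [h, inner_zero_left] at huu
    have : (0 : ℝ) ≤ n := Nat.cast_nonneg n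
    linarith
  have : Fact (Module.finrank ℝ (E (n + 2)) = (n + 1) + 1) := ⟨by simp⟩
  have hfin : Module.finrank ℝ ↥(ℝ ∙ u)ᗮ = n + 1 :=
    Submodule.finrank_orthogonal_span_singleton hu0
  have hle : Module.finrank ℝ ↥(ℝ ∙ u)ᗮ ≤ d := by omega
  set b := stdOrthonormalBasis ℝ ↥(ℝ ∙ u)ᗮ with hb
  set v : Fin (Module.finrank ℝ ↥(ℝ ∙ u)ᗮ) → E d :=
    fun k => EuclideanSpace.basisFun (Fin d) ℝ (Fin.castLE hle k) with hv
  have hvo : Orthonormal ℝ v :=
    (EuclideanSpace.basisFun (Fin d) ℝ).orthonormal.comp _ (Fin.castLE_injective hle)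
  set f : ↥(ℝ ∙ u)ᗮ →ₗ[ℝ] E d := b.toBasis.constr ℝ v with hf
  have hfv : (f ∘ b.toBasis) = v := by
    funext k
    simp [hf]
  set F : ↥(ℝ ∙ u)ᗮ →ₗᵢ[ℝ] E d := f.isometryOfOrthonormal (v := b.toBasis)
    (by rw [b.coe_toBasis]; exact b.orthonormal) (by rw [hfv]; exact hvo) with hF
  have hn1 : (0 : ℝ) < (n : ℝ) + 1 := by positivity
  have hn2 : (0 : ℝ) < (n : ℝ) + 2 := by positivity
  -- the vectors
  set z : Fin (n + 2) → E (n + 2) :=
    fun i => EuclideanSpace.single i (1 : ℝ) - ((n : ℝ) + 2)⁻¹ • u with hz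
  have hzz : ∀ i j, inner ℝ (z i) (z j) = (if i = j then (1 : ℝ) else 0) - ((n : ℝ) + 2)⁻¹ := by
    intro i j
    simp only [hz, inner_sub_left, inner_sub_right, real_inner_smul_left, real_inner_smul_right]
    rw [hun i, real_inner_comm (EuclideanSpace.single j (1 : ℝ)) u, hun j, huu]
    have h1 : inner ℝ (EuclideanSpace.single i (1 : ℝ) : E (n + 2))
        (EuclideanSpace.single j (1 : ℝ)) = if i = j then (1 : ℝ) else 0 := by
      rw [EuclideanSpace.inner_single_left, PiLp.single_apply]
      simp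
    rw [h1]
    field_simp
    ring
  have hzu : ∀ i, z i ∈ (ℝ ∙ u)ᗮ := by
    intro i
    rw [Submodule.mem_orthogonal_singleton_iff_inner_right]
    simp only [hz, inner_sub_right, real_inner_smul_right]
    rw [real_inner_comm, hun i, huu, inv_mul_cancel₀ hn2.ne', sub_self]
  set a : ℝ := Real.sqrt (((n : ℝ) + 2) / ((n : ℝ) + 1)) with ha
  have haa : a * a = ((n : ℝ) + 2) / ((n : ℝ) + 1) := Real.mul_self_sqrt (by positivity)
  have hin : ∀ i j, inner ℝ (a • F ⟨z i, hzu i⟩) (a • F ⟨z j, hzu j⟩) =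
      ((n : ℝ) + 2) / ((n : ℝ) + 1) * ((if i = j then (1 : ℝ) else 0) - ((n : ℝ) + 2)⁻¹) := by
    intro i j
    rw [real_inner_smul_left, real_inner_smul_right, F.inner_map_map, Submodule.coe_inner, hzz,
      ← mul_assoc, haa]
  refine ⟨fun i => a • F ⟨z i, hzu i⟩, fun i => ?_, fun i j hij => ?_⟩
  · have h1 : ‖a • F ⟨z i, hzu i⟩‖ ^ 2 = 1 := by
      rw [← real_inner_self_eq_norm_sq, hin, if_pos rfl]
      field_simp
      ring
    have h2 := norm_nonneg (a • F ⟨z i, hzu i⟩)
    nlinarith
  · rw [hin, if_neg hij]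
    field_simp
    ring

/-- `n + 1` unit vectors of `ℝ^n` with equal positive distances have inner products `-1 / n`. -/
theorem inner_of_dist (w : Fin (n + 2) → E (n + 1)) (hw : ∀ i, ‖w i‖ = 1) (r : ℝ) (hr : 0 < r)
    (hd : ∀ i j, i ≠ j → dist (w i) (w j) = r) :
    ∀ i j, i ≠ j → inner ℝ (w i) (w j) = -1 / ((n : ℝ) + 1) := by
  classical
  set c : ℝ := 1 - r ^ 2 / 2 with hc
  have hin : ∀ i j, i ≠ j → inner ℝ (w i) (w j) = c := by
    intro i j hij
    have h1 := hd i j hij
    rw [dist_eq_norm] at h1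
    have h2 := norm_sub_sq_real (w i) (w j)
    rw [h1, hw, hw] at h2
    rw [hc]
    linarith
  have hc1 : 1 - c ≠ 0 := by
    rw [hc]
    have : 0 < r ^ 2 := by positivity
    intro h
    linarith
  have hdep : ¬ LinearIndependent ℝ w := by
    intro h
    have := h.fintype_card_le_finrank
    simp at this
  rw [Fintype.not_linearIndependent_iff] at hdep
  obtain ⟨g, hg, k, hk⟩ := hdep
  have hj : ∀ j, (1 - c) * g j + c * ∑ i, g i = 0 := by
    intro j
    have h1 : inner ℝ (∑ i, g i • w i) (w j) = (0 : ℝ) := by rw [hg, inner_zero_left]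
    rw [sum_inner] at h1
    simp only [real_inner_smul_left] at h1
    rw [← Finset.add_sum_erase _ _ (Finset.mem_univ j)] at h1
    have h2 : ∑ i ∈ univ.erase j, g i * inner ℝ (w i) (w j) = c * ∑ i ∈ univ.erase j, g i := by
      rw [Finset.mul_sum]
      refine Finset.sum_congr rfl fun i hi => ?_
      rw [hin i j (Finset.ne_of_mem_erase hi)]
      ring
    rw [h2, real_inner_self_eq_norm_sq, hw] at h1
    rw [← Finset.add_sum_erase _ _ (Finset.mem_univ j)]
    linarith
  have hall : ∀ j, g j = g k := by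
    intro j
    have h1 := hj j
    have h2 := hj k
    have h3 : (1 - c) * (g j - g k) = 0 := by linarith
    rcases mul_eq_zero.mp h3 with h | h
    · exact absurd h hc1
    · linarith
  have hS : ∑ i, g i = ((n : ℝ) + 2) * g k := by
    rw [Finset.sum_congr rfl fun i _ => hall i]
    simp
  have h4 := hj k
  rw [hS] at h4
  have h5 : g k * (1 + c * ((n : ℝ) + 1)) = 0 := by linarith
  rcases mul_eq_zero.mp h5 with h | h
  · exact absurd h hk
  · intro i j hij
    rw [hin i j hij, eq_div_iff (by positivity)]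
    linarith

end Pool.Agent.Y505.MW
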